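import Mathlib

/-!
Definitions for the question on irregular Pisot numbers close to `2`.
-/

open Polynomial

namespace Pool.Agent.Lib.MP_3c3704_nt

/-- `q` is a Pisot number: a real algebraic integer greater than `1` all of whose other Galois
conjugates (complex roots of its minimal polynomial over `ℚ`) have absolute value less
than `1`. -/
def IsPisot (q : ℝ) : Prop :=
  1 < q ∧ IsIntegral ℤ q ∧
    ∀ z : ℂ, aeval z (minpoly ℚ q) = 0 → z ≠ (q : ℂ) → ‖z‖ < 1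

/-- `b` is a simple Parry number: `T^k 1 = 0` for some `k ≥ 1`, where `T x` is the fractional
part of `b * x`. -/
def IsSimpleParry (b : ℝ) : Prop :=
  ∃ k : ℕ, 1 ≤ k ∧ (fun x : ℝ => Int.fract (b * x))^[k] 1 = 0

/-- The polynomial `x ^ (r + 1) - 2 x ^ r + x - 1`. -/
noncomputable def Phi (r : ℕ) : ℤ[X] := X ^ (r + 1) - 2 * X ^ r + X - 1

/-- The polynomial `x ^ (r + 1) - x ^ r - ... - x - 1`. -/
noncomputable def Psi (r : ℕ) : ℤ[X] := X ^ (r + 1) - ∑ i ∈ Finset.range (r + 1), X ^ i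

/-- The polynomial `x ^ 4 - x ^ 3 - 2 x ^ 2 + 1`. -/
noncomputable def Chi : ℤ[X] := X ^ 4 - X ^ 3 - 2 * X ^ 2 + 1

/-- The polynomials of the seven regular families (with both signs `s = 1` and `s = -1`, all
`r ≥ 1` and all `n ≥ 0`).  Here `∑ i < r, x ^ i` is `(x ^ r - 1) / (x - 1)`. -/
def IsRegularPoly (P : ℤ[X]) : Prop :=
  (∃ r n : ℕ, ∃ s : ℤ, 1 ≤ r ∧ (s = 1 ∨ s = -1) ∧
    (P = Phi r * X ^ n + C s * (X ^ r - X ^ (r - 1) + 1) ∨
     P = Phi r * X ^ n + C s * (X ^ r - X + 1) ∨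
     P = Phi r * X ^ n + C s * ((X ^ r + 1) * (X - 1)) ∨
     P = Psi r * X ^ n + C s * (X ^ (r + 1) - 1) ∨
     P = Psi r * X ^ n + C s * ∑ i ∈ Finset.range r, X ^ i)) ∨
  (∃ n : ℕ, ∃ s : ℤ, (s = 1 ∨ s = -1) ∧
    (P = Chi * X ^ n + C s * (X ^ 3 + X ^ 2 - X - 1) ∨
     P = Chi * X ^ n + C s * (X ^ 4 - X ^ 2 + 1)))

/-- Regularity of a Pisot number `q` in `(1, 2)`: it is a root of one of the polynomials
`Phi r`, `Psi r` (`r ≥ 1`), `Chi`, or of a polynomial of one of the regular families. -/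
def IsRegularPisot (q : ℝ) : Prop :=
  (∃ r : ℕ, 1 ≤ r ∧ (aeval q (Phi r) = 0 ∨ aeval q (Psi r) = 0)) ∨ aeval q Chi = 0 ∨
    ∃ P : ℤ[X], IsRegularPoly P ∧ aeval q P = 0

/-- The set in the question: irregular Pisot numbers in `(1.933, 2)` of degree at least `151`
which are not simple Parry numbers. -/
def exceptionalSet : Set ℝ :=
  {q : ℝ | IsPisot q ∧ 1.933 < q ∧ q < 2 ∧ ¬ IsRegularPisot q ∧ 151 ≤ (minpoly ℚ q).natDegree ∧
    ¬ IsSimpleParry q}

end Pool.Agent.Lib.MP_3c3704_nt
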