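import Mathlib

/-!
Counting the roots of a complex polynomial in the open unit disc, and invariance of this number
along a linear homotopy without roots on the unit circle.
-/

open Polynomial Complex Metric MeasureTheory Set

namespace Pool.Agent.Lib.MP_3c3704_nt

/-- The number of roots, with multiplicity, of `p` in the open unit disc. -/
noncomputable def nIn (p : ℂ[X]) : ℕ := by
  classical exact (p.roots.filter (fun a => ‖a‖ < 1)).card

lemma ne_of_norm {a z : ℂ} (ha : ‖a‖ ≠ 1) (hz : z ∈ sphere (0 : ℂ) 1) : z - a ≠ 0 := by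
  intro h
  have : z = a := sub_eq_zero.mp h
  apply ha
  rw [← this]
  simpa using hz

lemma continuousOn_inv_sub {a : ℂ} (ha : ‖a‖ ≠ 1) :
    ContinuousOn (fun z : ℂ => 1 / (z - a)) (sphere 0 1) := by
  apply ContinuousOn.div continuousOn_const
  · exact (continuous_id.sub continuous_const).continuousOn
  · intro z hz
    exact ne_of_norm ha hz

lemma integral_inv_sub {a : ℂ} (ha : ‖a‖ ≠ 1) :
    (∮ z in C(0, 1), 1 / (z - a)) = if ‖a‖ < 1 then 2 * Real.pi * I else 0 := by
  split_ifs with h
  · have h1 : a ∈ ball (0 : ℂ) 1 := by simpa using h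
    have := circleIntegral.integral_sub_inv_of_mem_ball h1
    simpa [one_div] using this
  · have hgt : 1 < ‖a‖ := lt_of_le_of_ne (not_lt.mp h) (Ne.symm ha)
    have hne : ∀ z ∈ closedBall (0 : ℂ) 1, z - a ≠ 0 := by
      intro z hz h0
      have hza : z = a := sub_eq_zero.mp h0
      have : ‖z‖ ≤ 1 := by simpa using hz
      rw [hza] at this
      exact absurd this (not_le.mpr hgt)
    apply Complex.circleIntegral_eq_zero_of_differentiable_on_off_countable zero_le_one
      countable_empty
    · apply ContinuousOn.div continuousOn_const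
      · exact (continuous_id.sub continuous_const).continuousOn
      · exact hne
    · intro z hz
      have hz1 : z ∈ ball (0 : ℂ) 1 := hz.1
      apply DifferentiableAt.div
      · exact differentiableAt_const _
      · exact differentiableAt_id.sub (differentiableAt_const _)
      · exact hne z (ball_subset_closedBall hz1)

lemma integral_multiset (s : Multiset ℂ) (hs : ∀ a ∈ s, ‖a‖ ≠ 1) :
    ContinuousOn (fun z : ℂ => (s.map fun a => 1 / (z - a)).sum) (sphere 0 1) ∧
    (∮ z in C(0, 1), (s.map fun a => 1 / (z - a)).sum) =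
      2 * Real.pi * I * ((by classical exact (s.filter (fun a => ‖a‖ < 1)).card : ℕ) : ℂ) := by
  classical
  induction s using Multiset.induction with
  | empty =>
    refine ⟨by simpa using continuousOn_const, ?_⟩
    simp [circleIntegral]
  | cons a s ih =>
    obtain ⟨h1, h2⟩ := ih (fun b hb => hs b (Multiset.mem_cons_of_mem hb))
    have ha := hs a (Multiset.mem_cons_self a s)
    have hc := continuousOn_inv_sub ha
    constructor
    · simp only [Multiset.map_cons, Multiset.sum_cons]
      exact hc.add h1
    · simp only [Multiset.map_cons, Multiset.sum_cons]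
      rw [circleIntegral.integral_add (hc.circleIntegrable zero_le_one)
        (h1.circleIntegrable zero_le_one), h2, integral_inv_sub ha]
      by_cases hlt : ‖a‖ < 1
      · rw [if_pos hlt, Multiset.filter_cons_of_pos (p := fun b : ℂ => ‖b‖ < 1) s hlt,
          Multiset.card_cons]
        push_cast
        ring
      · rw [if_neg hlt, Multiset.filter_cons_of_neg (p := fun b : ℂ => ‖b‖ < 1) s hlt, zero_add]

/-- The argument principle for a polynomial and the unit circle. -/
theorem integral_logDeriv (p : ℂ[X]) (h : ∀ z : ℂ, ‖z‖ = 1 → p.eval z ≠ 0) :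
    (∮ z in C(0, 1), p.derivative.eval z / p.eval z) = 2 * Real.pi * I * (nIn p : ℂ) := by
  classical
  have hs : ∀ a ∈ p.roots, ‖a‖ ≠ 1 := by
    intro a ha hn
    exact h a hn (Polynomial.isRoot_of_mem_roots ha)
  have h1 := (integral_multiset p.roots hs).2
  have h2 : (∮ z in C(0, 1), p.derivative.eval z / p.eval z) =
      ∮ z in C(0, 1), (p.roots.map fun a => 1 / (z - a)).sum := by
    apply circleIntegral.integral_congr zero_le_one
    intro z hz
    have hz1 : ‖z‖ = 1 := by simpa using hz
    exact (IsAlgClosed.splits p).eval_derivative_div_eval_of_ne_zero (h z hz1)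
  rw [h2, h1]
  rfl

/-- The number of roots in the unit disc does not change along the homotopy `B + s A`. -/
theorem nIn_homotopy (A B : ℂ[X])
    (h : ∀ s : ℝ, 0 ≤ s → s ≤ 1 → ∀ z : ℂ, ‖z‖ = 1 → B.eval z + (s : ℂ) * A.eval z ≠ 0) :
    nIn (B + A) = nIn B := by
  classical
  -- clamp the parameter to `[0,1]`
  set c : ℝ → ℝ := fun s => max 0 (min 1 s) with hc
  have hccont : Continuous c := continuous_const.max (continuous_const.min continuous_id)
  have hc0 : ∀ s, 0 ≤ c s := fun s => le_max_left _ _
  have hc1 : ∀ s, c s ≤ 1 := fun s => max_le zero_le_one (min_le_left _ _)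
  set P : ℝ → ℂ[X] := fun s => B + C ((c s : ℝ) : ℂ) * A with hP
  have hev : ∀ s z, (P s).eval z = B.eval z + ((c s : ℝ) : ℂ) * A.eval z := by
    intro s z; simp [hP]
  have hdev : ∀ s z, (P s).derivative.eval z =
      B.derivative.eval z + ((c s : ℝ) : ℂ) * A.derivative.eval z := by
    intro s z; simp [hP]
  have hne : ∀ s z, ‖z‖ = 1 → (P s).eval z ≠ 0 := by
    intro s z hz
    rw [hev]
    exact h (c s) (hc0 s) (hc1 s) z hz
  set N : ℝ → ℂ := fun s => ∮ z in C(0, 1), (P s).derivative.eval z / (P s).eval z with hN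
  have hNval : ∀ s, N s = 2 * Real.pi * I * (nIn (P s) : ℂ) := fun s =>
    integral_logDeriv (P s) (hne s)
  have hNcont : Continuous N := by
    have hcm : Continuous (fun x : ℝ × ℝ => circleMap (0 : ℂ) 1 x.2) :=
      (continuous_circleMap 0 1).comp continuous_snd
    have hcc : Continuous (fun x : ℝ × ℝ => ((c x.1 : ℝ) : ℂ)) :=
      continuous_ofReal.comp (hccont.comp continuous_fst)
    have : N = fun s => ∫ θ in (0 : ℝ)..2 * Real.pi, deriv (circleMap (0 : ℂ) 1) θ •
        ((P s).derivative.eval (circleMap 0 1 θ) / (P s).eval (circleMap 0 1 θ)) := by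
      funext s
      rfl
    rw [this]
    apply intervalIntegral.continuous_parametric_intervalIntegral_of_continuous'
    have k1 : Continuous (fun x : ℝ × ℝ => circleMap (0 : ℂ) 1 x.2 * I) := hcm.mul continuous_const
    have k2 : Continuous (fun x : ℝ × ℝ => B.derivative.eval (circleMap (0 : ℂ) 1 x.2) +
            ((c x.1 : ℝ) : ℂ) * A.derivative.eval (circleMap (0 : ℂ) 1 x.2)) :=
          (B.derivative.continuous.comp hcm).add (hcc.mul (A.derivative.continuous.comp hcm))
    have k3 : Continuous (fun x : ℝ × ℝ => B.eval (circleMap (0 : ℂ) 1 x.2) +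
            ((c x.1 : ℝ) : ℂ) * A.eval (circleMap (0 : ℂ) 1 x.2)) :=
          (B.continuous.comp hcm).add (hcc.mul (A.continuous.comp hcm))
    have k4 : ∀ x : ℝ × ℝ, B.eval (circleMap (0 : ℂ) 1 x.2) +
            ((c x.1 : ℝ) : ℂ) * A.eval (circleMap (0 : ℂ) 1 x.2) ≠ 0 := by
      rintro ⟨s, θ⟩
      have hn : ‖circleMap (0 : ℂ) 1 θ‖ = 1 := by simp
      exact h (c s) (hc0 s) (hc1 s) _ hn
    have k5 := k1.mul (k2.div k3 k4)
    convert k5 using 1
    funext x
    obtain ⟨s, θ⟩ := x
    simp only [Function.uncurry_apply_pair, deriv_circleMap, smul_eq_mul, hdev, hev,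
      Pi.mul_apply, Pi.div_apply]
  -- `N / (2 π i)` is continuous with values in `ℕ`
  have hpi : (2 * Real.pi * I : ℂ) ≠ 0 := Complex.two_pi_I_ne_zero
  have hconst : nIn (P 1) = nIn (P 0) := by
    have hcont : Continuous (fun s => (N s / (2 * Real.pi * I)).re) :=
      continuous_re.comp (hNcont.div_const _)
    have hval : ∀ s, (N s / (2 * Real.pi * I)).re = (nIn (P s) : ℝ) := by
      intro s
      rw [hNval, mul_div_cancel_left₀ _ hpi]
      simp
    have hcont2 : Continuous (fun s => (nIn (P s) : ℝ)) := by
      simpa [hval] using hcont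
    -- pass to `ℕ`
    have hcont3 : Continuous (fun s => nIn (P s)) := by
      have he : Topology.IsEmbedding (Nat.cast : ℕ → ℝ) := Nat.isClosedEmbedding_coe_real.isEmbedding
      exact he.continuous_iff.mpr hcont2
    exact PreconnectedSpace.constant inferInstance hcont3
  have h1 : c 1 = 1 := by simp [hc]
  have h0 : c 0 = 0 := by simp [hc]
  have hP1 : P 1 = B + A := by simp [hP, h1]
  have hP0 : P 0 = B := by simp [hP, h0]
  rw [hP1, hP0] at hconst
  exact hconst

end Pool.Agent.Lib.MP_3c3704_nt
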