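import Mathlib
import Pool.Agent.Lib.MP_3c3704_nt.Defs
import Pool.Agent.Lib.MP_3c3704_nt.RootCount

/-!
The family `P m = (x - 1) (x ^ (2m-1) - 1) (x ^ (2m) + x ^ m + 1) - x ^ (4m-1)`, written with
`m = k + 1`.
-/

open Polynomial

namespace Pool.Agent.Lib.MP_3c3704_nt

/-- The product part. -/
noncomputable def A (k : ℕ) : ℤ[X] :=
  (X - 1) * (X ^ (2 * k + 1) - 1) * (X ^ (2 * k + 2) + X ^ (k + 1) + 1)

/-- The polynomial of the family. -/
noncomputable def P (k : ℕ) : ℤ[X] := A k - X ^ (4 * k + 3)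

/-- No zero on the unit circle. -/
lemma circle_ne {k : ℕ} {s : ℝ} (hs0 : 0 ≤ s) (hs1 : s ≤ 1) {z : ℂ} (hz : ‖z‖ = 1) :
    -z ^ (4 * k + 3) +
      (s : ℂ) * ((z - 1) * (z ^ (2 * k + 1) - 1) * (z ^ (2 * k + 2) + z ^ (k + 1) + 1)) ≠ 0 := by
  intro h
  have hz0 : z ≠ 0 := by
    intro h0; rw [h0] at hz; simp at hz
  have hconj : (starRingEnd ℂ) z = z⁻¹ := by
    rw [Complex.inv_def, Complex.normSq_eq_norm_sq, hz]; simp
  set y := z ^ (k + 1) with hy
  set w := z ^ (2 * k + 1) with hw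
  have hy2 : y ^ 2 = z * w := by rw [hy, hw]; ring
  have h2k2 : z ^ (2 * k + 2) = z * w := by rw [hw]; ring
  have h4k3 : z ^ (4 * k + 3) = z * w ^ 2 := by rw [hw]; ring
  rw [h2k2, h4k3] at h
  have hw0 : w ≠ 0 := pow_ne_zero _ hz0
  have hy0 : y ≠ 0 := pow_ne_zero _ hz0
  have hcw : (starRingEnd ℂ) w = w⁻¹ := by rw [hw, map_pow, hconj, inv_pow]
  have hcy : (starRingEnd ℂ) y = y⁻¹ := by rw [hy, map_pow, hconj, inv_pow]
  -- the conjugate equation
  have hc := congrArg (starRingEnd ℂ) h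
  simp only [map_add, map_neg, map_mul, map_pow, map_sub, map_one, map_zero, hconj, hcw, hcy,
    Complex.conj_ofReal] at hc
  -- multiply the conjugate equation by `z ^ 2 * w ^ 2`
  have hc2 : -z + (s : ℂ) * ((z - 1) * (w - 1) * (z * w + y + 1)) = 0 := by
    have hyinv : y⁻¹ * (z * w) = y := by
      rw [← hy2]; field_simp
    have e1 : (-(z⁻¹ * w⁻¹ ^ 2) + (s : ℂ) * ((z⁻¹ - 1) * (w⁻¹ - 1) * (z⁻¹ * w⁻¹ + y⁻¹ + 1))) *
        (z ^ 2 * w ^ 2) = -z + (s : ℂ) * ((z - 1) * (w - 1) * (1 + y⁻¹ * (z * w) + z * w)) := by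
      field_simp
      ring
    rw [hc, zero_mul, hyinv] at e1
    rw [e1]
    ring
  -- hence `w ^ 2 = 1`
  have hw2 : w ^ 2 = 1 := by
    have h3 : z * (w ^ 2 - 1) = 0 := by linear_combination hc2 - h
    rcases mul_eq_zero.mp h3 with h4 | h4
    · exact absurd h4 hz0
    · linear_combination h4
  have hw3 : (w - 1) * (w + 1) = 0 := by linear_combination hw2
  rcases mul_eq_zero.mp hw3 with h4 | h4
  · -- `w = 1`
    have hw1 : w = 1 := by linear_combination h4
    rw [hw1] at hc2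
    apply hz0
    linear_combination -hc2
  · -- `w = -1`
    have hw1 : w = -1 := by linear_combination h4
    have hzy : z = -y ^ 2 := by rw [hy2, hw1]; ring
    rw [hw1, hzy] at hc2
    -- real part argument
    have ht : (y + y⁻¹) = ((2 * y.re : ℝ) : ℂ) := by
      rw [← hcy, Complex.add_conj]
    have h5 : 2 * (s : ℂ) * (y + y⁻¹) * (y + y⁻¹ + 1) + 1 = 0 := by
      have h6 : y ^ 2 * (2 * (s : ℂ) * (y + y⁻¹) * (y + y⁻¹ + 1) + 1) = 0 := by
        have : y ^ 2 * (2 * (s : ℂ) * (y + y⁻¹) * (y + y⁻¹ + 1) + 1) =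
            2 * (s : ℂ) * (y ^ 2 + 1) * (y ^ 2 + y + 1) + y ^ 2 := by
          field_simp
          ring
        rw [this]
        linear_combination hc2
      rcases mul_eq_zero.mp h6 with h7 | h7
      · exact absurd h7 (pow_ne_zero _ hy0)
      · exact h7
    rw [ht] at h5
    have h8 : 2 * s * (2 * y.re) * (2 * y.re + 1) + 1 = 0 := by
      exact_mod_cast h5
    nlinarith [sq_nonneg (2 * y.re + 1 / 2), mul_nonneg hs0 (sq_nonneg (2 * y.re + 1 / 2))]

/-- The complex version of `P k`. -/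
noncomputable def PC (k : ℕ) : ℂ[X] := (P k).map (Int.castRingHom ℂ)

lemma PC_eq (k : ℕ) : PC k = -X ^ (4 * k + 3) + (A k).map (Int.castRingHom ℂ) := by
  rw [PC, P, Polynomial.map_sub, Polynomial.map_pow, map_X]
  ring

lemma A_natDegree (k : ℕ) : (A k).natDegree = 4 * k + 4 ∧ (A k).Monic := by
  have h1 : (X - 1 : ℤ[X]).Monic := by
    have := monic_X_sub_C (1 : ℤ); simpa using this
  have h1d : (X - 1 : ℤ[X]).natDegree = 1 := by
    have := natDegree_X_sub_C (1 : ℤ); simpa using this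
  have h2 : (X ^ (2 * k + 1) - 1 : ℤ[X]).Monic := by
    have := monic_X_pow_sub_C (1 : ℤ) (n := 2 * k + 1) (by omega); simpa using this
  have h2d : (X ^ (2 * k + 1) - 1 : ℤ[X]).natDegree = 2 * k + 1 := by
    have := natDegree_X_pow_sub_C (n := 2 * k + 1) (r := (1 : ℤ)); simpa using this
  have hlow : (X ^ (k + 1) + 1 : ℤ[X]).degree < ((2 * k + 2 : ℕ) : WithBot ℕ) := by
    have : (X ^ (k + 1) + 1 : ℤ[X]).degree = ((k + 1 : ℕ) : WithBot ℕ) := by
      have := degree_X_pow_add_C (n := k + 1) (by omega) (1 : ℤ); simpa using this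
    rw [this]
    exact_mod_cast (by omega : k + 1 < 2 * k + 2)
  have h3 : (X ^ (2 * k + 2) + X ^ (k + 1) + 1 : ℤ[X]).Monic := by
    rw [add_assoc]
    exact monic_X_pow_add hlow
  have h3d : (X ^ (2 * k + 2) + X ^ (k + 1) + 1 : ℤ[X]).natDegree = 2 * k + 2 := by
    rw [add_assoc]
    apply natDegree_eq_of_degree_eq_some
    rw [degree_add_eq_left_of_degree_lt]
    · simp
    · simpa using hlow
  refine ⟨?_, (h1.mul h2).mul h3⟩
  rw [A, (h1.mul h2).natDegree_mul h3, h1.natDegree_mul h2, h1d, h2d, h3d]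
  ring

lemma P_monic (k : ℕ) : (P k).Monic ∧ (P k).natDegree = 4 * k + 4 := by
  obtain ⟨h1, h2⟩ := A_natDegree k
  have h3 : (X ^ (4 * k + 3) : ℤ[X]).degree < (A k).degree := by
    rw [degree_eq_natDegree h2.ne_zero, h1, degree_X_pow]
    exact_mod_cast (by omega : 4 * k + 3 < 4 * k + 4)
  refine ⟨h2.sub_of_left h3, ?_⟩
  rw [P, natDegree_sub_eq_left_of_natDegree_lt, h1]
  rw [h1, natDegree_X_pow]
  omega

lemma PC_natDegree (k : ℕ) : (PC k).natDegree = 4 * k + 4 := by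
  rw [PC, (P_monic k).1.natDegree_map, (P_monic k).2]

lemma PC_monic (k : ℕ) : (PC k).Monic := (P_monic k).1.map _

lemma eval_A (k : ℕ) (z : ℂ) : ((A k).map (Int.castRingHom ℂ)).eval z =
    (z - 1) * (z ^ (2 * k + 1) - 1) * (z ^ (2 * k + 2) + z ^ (k + 1) + 1) := by
  simp [A]

lemma nIn_PC (k : ℕ) : nIn (PC k) = 4 * k + 3 := by
  classical
  rw [PC_eq, nIn_homotopy]
  · unfold nIn
    rw [roots_neg, roots_X_pow]
    simp [Multiset.filter_nsmul, Multiset.filter_singleton]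
  · intro s hs0 hs1 z hz
    have := circle_ne (k := k) hs0 hs1 hz
    rw [eval_A]
    simpa using this

/-- There is exactly one root which is not in the open unit disc. -/
lemma card_out (k : ℕ) : ((PC k).roots.filter (fun a => ¬ ‖a‖ < 1)).card = 1 := by
  classical
  have h1 : (PC k).roots.card = 4 * k + 4 := by
    rw [IsAlgClosed.card_roots_eq_natDegree, PC_natDegree]
  have h2 := Multiset.filter_add_not (fun a : ℂ => ‖a‖ < 1) (PC k).roots
  have h3 : ((PC k).roots.filter (fun a => ‖a‖ < 1)).card = 4 * k + 3 := by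
    have := nIn_PC k
    unfold nIn at this
    convert this
  have h4 := congrArg Multiset.card h2
  rw [Multiset.card_add, h1] at h4
  have h5 : ((PC k).roots.filter (fun a => ‖a‖ < 1)).card +
      ((PC k).roots.filter (fun a => ¬ ‖a‖ < 1)).card = 4 * k + 4 := h4
  rw [h3] at h5
  omega

end Pool.Agent.Lib.MP_3c3704_nt
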