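import Mathlib
import Pool.Agent.Lib.MP_3c3704_nt.Defs
import Pool.Agent.Lib.MP_3c3704_nt.RootCount
import Pool.Agent.Lib.MP_3c3704_nt.Family

/-!
The real root of `P k` is a Pisot number of degree `4 k + 4`, and it is not a simple Parry number.
-/

open Polynomial

namespace Pool.Agent.Lib.MP_3c3704_nt

lemma aeval_P (k : ℕ) (x : ℝ) : aeval x (P k) =
    x ^ (4 * k + 3) * (x - 2) +
      (x - 1) * (x ^ (3 * k + 2) - x ^ (2 * k + 2) + x ^ (2 * k + 1) - x ^ (k + 1) - 1) := by
  simp only [P, A, map_sub, map_mul, map_add, map_pow, aeval_X, map_one]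
  ring

lemma exists_root {k : ℕ} (hk : 9 ≤ k) : ∃ q : ℝ, 1.99 < q ∧ q < 2 ∧ aeval q (P k) = 0 := by
  have hcont : Continuous (fun x : ℝ => aeval x (P k)) := Polynomial.continuous_aeval (P k)
  have h1 : aeval (1.99 : ℝ) (P k) < 0 := by
    rw [aeval_P]
    have hp : (100 : ℝ) < 1.99 ^ (k + 1) := by
      calc (100 : ℝ) < 1.99 ^ 10 := by norm_num
        _ ≤ 1.99 ^ (k + 1) := pow_le_pow_right₀ (by norm_num) (by omega)
    have e1 : (1.99 : ℝ) ^ (4 * k + 3) = 1.99 ^ (3 * k + 2) * 1.99 ^ (k + 1) := by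
      rw [← pow_add]; congr 1; ring
    have e2 : (1.99 : ℝ) ^ (2 * k + 1) ≤ 1.99 ^ (2 * k + 2) :=
      pow_le_pow_right₀ (by norm_num) (by omega)
    have e3 : (0 : ℝ) < 1.99 ^ (3 * k + 2) := by positivity
    have e4 : (0 : ℝ) < 1.99 ^ (k + 1) := by positivity
    rw [e1]
    nlinarith [mul_pos e3 (sub_pos.mpr hp)]
  have h2 : 0 < aeval (2 : ℝ) (P k) := by
    rw [aeval_P]
    have e1 : (2 : ℝ) ^ (3 * k + 2) = 2 ^ (2 * k + 2) * 2 ^ k := by
      rw [← pow_add]; congr 1; ring
    have e2 : (2 : ℝ) ^ (2 * k + 2) = 2 ^ (k + 1) * 2 ^ (k + 1) := by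
      rw [← pow_add]; congr 1; ring
    have e3 : (2 : ℝ) ≤ 2 ^ k := by
      calc (2 : ℝ) = 2 ^ 1 := by norm_num
        _ ≤ 2 ^ k := pow_le_pow_right₀ (by norm_num) (by omega)
    have e4 : (2 : ℝ) ≤ 2 ^ (k + 1) := by
      calc (2 : ℝ) = 2 ^ 1 := by norm_num
        _ ≤ 2 ^ (k + 1) := pow_le_pow_right₀ (by norm_num) (by omega)
    have e5 : (0 : ℝ) < 2 ^ (2 * k + 1) := by positivity
    have e6 : (0 : ℝ) < 2 ^ (2 * k + 2) := by positivity
    rw [e1]
    nlinarith [mul_nonneg e6.le (sub_nonneg.mpr e3)]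
  have h3 := intermediate_value_Ioo (by norm_num : (1.99 : ℝ) ≤ 2) hcont.continuousOn
  obtain ⟨q, hq, hq0⟩ := h3 ⟨h1, h2⟩
  exact ⟨q, hq.1, hq.2, hq0⟩

lemma eval_PC_ofReal (k : ℕ) (x : ℝ) : (PC k).eval (x : ℂ) = ((aeval x (P k) : ℝ) : ℂ) := by
  rw [PC, eval_map, ← Complex.coe_algebraMap, ← aeval_algebraMap_apply]
  rw [aeval_def]
  rfl

lemma eval_PC (k : ℕ) (z : ℂ) : (PC k).eval z = aeval z (P k) := by
  rw [PC, eval_map, aeval_def]
  rfl

variable {k : ℕ} {q : ℝ}

/-- Only `q` lies outside the open unit disc, and it is a simple root. -/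
lemma out_eq (hq1 : 1 < q) (hq : aeval q (P k) = 0) :
    (PC k).roots.filter (fun a => ¬ ‖a‖ < 1) = {(q : ℂ)} := by
  classical
  have h1 := card_out k
  obtain ⟨a, ha⟩ := Multiset.card_eq_one.mp h1
  have hmem : (q : ℂ) ∈ (PC k).roots.filter (fun a => ¬ ‖a‖ < 1) := by
    rw [Multiset.mem_filter]
    constructor
    · rw [mem_roots (PC_monic k).ne_zero, IsRoot, eval_PC_ofReal, hq]
      simp
    · rw [Complex.norm_real, Real.norm_eq_abs, abs_of_pos (by linarith)]
      exact not_lt.mpr hq1.le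
  rw [ha, Multiset.mem_singleton] at hmem
  rw [ha, hmem]

lemma norm_lt_one (hq1 : 1 < q) (hq : aeval q (P k) = 0) {z : ℂ} (hz : aeval z (P k) = 0)
    (hne : z ≠ q) : ‖z‖ < 1 := by
  classical
  by_contra hcon
  have h1 := out_eq hq1 hq
  have hmem : z ∈ (PC k).roots.filter (fun a => ¬ ‖a‖ < 1) := by
    rw [Multiset.mem_filter]
    refine ⟨?_, hcon⟩
    rw [mem_roots (PC_monic k).ne_zero, IsRoot, eval_PC, hz]
  rw [h1, Multiset.mem_singleton] at hmem
  exact hne hmem

lemma count_q (hq1 : 1 < q) (hq : aeval q (P k) = 0) :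
    (by classical exact (PC k).roots.count (q : ℂ)) = 1 := by
  classical
  have h1 := out_eq hq1 hq
  have h2 : ¬ ‖(q : ℂ)‖ < 1 := by
    rw [Complex.norm_real, Real.norm_eq_abs, abs_of_pos (by linarith)]
    exact not_lt.mpr hq1.le
  have h3 := Multiset.count_filter_of_pos (s := (PC k).roots) (p := fun a => ¬ ‖a‖ < 1) h2
  rw [h1] at h3
  simpa using h3.symm

lemma norm_prod_lt_one {s : Multiset ℂ} (hs : ∀ a ∈ s, ‖a‖ < 1) (h0 : s ≠ 0) :
    ‖s.prod‖ < 1 := by
  induction s using Multiset.induction with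
  | empty => exact absurd rfl h0
  | cons a s ih =>
    rw [Multiset.prod_cons, norm_mul]
    have ha := hs a (Multiset.mem_cons_self a s)
    rcases eq_or_ne s 0 with h | h
    · rw [h]; simpa using ha
    · have := ih (fun b hb => hs b (Multiset.mem_cons_of_mem hb)) h
      nlinarith [norm_nonneg a, norm_nonneg s.prod]

/-- A monic integer polynomial of positive degree with all roots in the open unit disc vanishes
at `0`. -/
lemma eval_zero_of_roots_lt {g : ℤ[X]} (hg : g.Monic) (hd : g.natDegree ≠ 0)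
    (hr : ∀ a ∈ (g.map (Int.castRingHom ℂ)).roots, ‖a‖ < 1) : g.coeff 0 = 0 := by
  set G := g.map (Int.castRingHom ℂ) with hG
  have hGm : G.Monic := hg.map _
  have hGd : G.natDegree = g.natDegree := hg.natDegree_map _
  have hsplit : G.Splits := IsAlgClosed.splits G
  have h1 : G.coeff 0 = (-1) ^ G.natDegree * G.roots.prod :=
    hsplit.coeff_zero_eq_prod_roots_of_monic hGm
  have h2 : G.roots ≠ 0 := by
    intro h
    have : G.roots.card = G.natDegree := IsAlgClosed.card_roots_eq_natDegree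
    rw [h, Multiset.card_zero, hGd] at this
    exact hd this.symm
  have h3 := norm_prod_lt_one hr h2
  have h4 : ‖G.coeff 0‖ < 1 := by
    rw [h1, norm_mul, norm_pow, norm_neg, norm_one, one_pow, one_mul]
    exact h3
  rw [hG, coeff_map] at h4
  have h5 : ‖((g.coeff 0 : ℤ) : ℂ)‖ < 1 := h4
  rw [Complex.norm_intCast] at h5
  have h6 : |g.coeff 0| < 1 := by exact_mod_cast h5
  exact Int.abs_lt_one_iff.mp h6

lemma coeff_zero_P (k : ℕ) : (P k).coeff 0 = 1 := by
  rw [coeff_zero_eq_eval_zero]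
  simp [P, A]

lemma irreducible_P (hq1 : 1 < q) (hq : aeval q (P k) = 0) : Irreducible (P k) := by
  classical
  rw [(P_monic k).1.irreducible_iff_natDegree]
  constructor
  · intro h
    have := (P_monic k).2
    rw [h] at this
    simp at this
  · intro f g hf hg hfg
    by_contra hcon
    push Not at hcon
    obtain ⟨hfd, hgd⟩ := hcon
    have hroots : (PC k).roots = (f.map (Int.castRingHom ℂ)).roots +
        (g.map (Int.castRingHom ℂ)).roots := by
      rw [PC, ← hfg, Polynomial.map_mul, roots_mul]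
      exact mul_ne_zero (hf.map _).ne_zero (hg.map _).ne_zero
    have hcount := count_q hq1 hq
    rw [hroots, Multiset.count_add] at hcount
    -- a factor without the root `q` vanishes at `0`
    have key : ∀ h : ℤ[X], h.Monic → h.natDegree ≠ 0 →
        (∀ a ∈ (h.map (Int.castRingHom ℂ)).roots, a ∈ (PC k).roots) →
        (q : ℂ) ∉ (h.map (Int.castRingHom ℂ)).roots → h.coeff 0 = 0 := by
      intro h hm hd hsub hnot
      apply eval_zero_of_roots_lt hm hd
      intro a ha
      have h1 := hsub a ha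
      rw [mem_roots (PC_monic k).ne_zero, IsRoot, eval_PC] at h1
      apply norm_lt_one hq1 hq h1
      rintro rfl
      exact hnot ha
    have hprod : f.coeff 0 * g.coeff 0 = 1 := by
      rw [← mul_coeff_zero, hfg, coeff_zero_P]
    by_cases hin : (q : ℂ) ∈ (f.map (Int.castRingHom ℂ)).roots
    · have hc1 : 1 ≤ Multiset.count (q : ℂ) (f.map (Int.castRingHom ℂ)).roots :=
        Multiset.one_le_count_iff_mem.mpr hin
      have hc2 : Multiset.count (q : ℂ) (g.map (Int.castRingHom ℂ)).roots = 0 := by omega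
      have := key g hg hgd (fun a ha => by rw [hroots]; exact Multiset.mem_add.mpr (Or.inr ha))
        (Multiset.count_eq_zero.mp hc2)
      rw [this, mul_zero] at hprod
      exact zero_ne_one hprod
    · have := key f hf hfd (fun a ha => by rw [hroots]; exact Multiset.mem_add.mpr (Or.inl ha)) hin
      rw [this, zero_mul] at hprod
      exact zero_ne_one hprod

lemma minpoly_eq (hq1 : 1 < q) (hq : aeval q (P k) = 0) :
    minpoly ℚ q = (P k).map (Int.castRingHom ℚ) := by
  have hirr := irreducible_P hq1 hq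
  have hirrQ : Irreducible ((P k).map (Int.castRingHom ℚ)) :=
    ((P_monic k).1.irreducible_iff_irreducible_map_fraction_map (K := ℚ)).mp hirr
  have hroot : aeval q ((P k).map (Int.castRingHom ℚ)) = 0 := by
    rw [← hq]
    exact aeval_map_algebraMap ℚ q (P k)
  exact (minpoly.eq_of_irreducible_of_monic hirrQ hroot ((P_monic k).1.map _)).symm

lemma degree_eq (hq1 : 1 < q) (hq : aeval q (P k) = 0) :
    (minpoly ℚ q).natDegree = 4 * k + 4 := by
  rw [minpoly_eq hq1 hq, (P_monic k).1.natDegree_map, (P_monic k).2]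

lemma isPisot (hq1 : 1 < q) (hq : aeval q (P k) = 0) : IsPisot q := by
  refine ⟨hq1, ⟨P k, (P_monic k).1, ?_⟩, ?_⟩
  · rw [← hq, aeval_def]
  · intro z hz hne
    apply norm_lt_one hq1 hq _ hne
    rw [minpoly_eq hq1 hq] at hz
    rw [← hz]
    exact (aeval_map_algebraMap ℚ z (P k)).symm

/-- A nonzero integer polynomial vanishing at `q` has degree at least `4 k + 4`. -/
lemma le_natDegree (hq1 : 1 < q) (hq : aeval q (P k) = 0) {R : ℤ[X]} (hR : R ≠ 0)
    (hRq : aeval q R = 0) : 4 * k + 4 ≤ R.natDegree := by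
  have h1 : aeval q (R.map (Int.castRingHom ℚ)) = 0 := by
    rw [← hRq]; exact aeval_map_algebraMap ℚ q R
  have h2 : R.map (Int.castRingHom ℚ) ≠ 0 := by
    rw [Ne, Polynomial.map_eq_zero_iff (Int.cast_injective)]
    exact hR
  have h3 := natDegree_le_of_dvd (minpoly.dvd ℚ q h1) h2
  rw [degree_eq hq1 hq] at h3
  exact h3.trans (natDegree_map_le)

end Pool.Agent.Lib.MP_3c3704_nt
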