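import Mathlib
import Pool.Agent.Lib.MP_3c3704_nt.Defs
import Pool.Agent.Lib.MP_3c3704_nt.RootCount
import Pool.Agent.Lib.MP_3c3704_nt.Family
import Pool.Agent.Lib.MP_3c3704_nt.Pisot

/-!
The real root of `P k` is irregular.
-/

open Polynomial

namespace Pool.Agent.Lib.MP_3c3704_nt

/-! ### Degree bounds -/

lemma natDegree_Phi_le (r : ℕ) : (Phi r).natDegree ≤ r + 1 := by
  unfold Phi
  compute_degree

lemma natDegree_sum_X_le (r t : ℕ) (h : t ≤ r + 2) :
    (∑ i ∈ Finset.range t, X ^ i : ℤ[X]).natDegree ≤ r + 1 := by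
  refine (natDegree_sum_le _ _).trans ?_
  rw [Finset.fold_max_le]
  refine ⟨by omega, ?_⟩
  intro i hi
  have := Finset.mem_range.mp hi
  simp only [Function.comp]
  exact (natDegree_X_pow_le _).trans (by omega)

lemma natDegree_Psi_le (r : ℕ) : (Psi r).natDegree ≤ r + 1 := by
  unfold Psi
  refine (natDegree_sub_le _ _).trans (max_le (natDegree_X_pow_le _) ?_)
  exact natDegree_sum_X_le r (r + 1) (by omega)

lemma natDegree_comb_le {M B : ℤ[X]} {n r : ℕ} (s : ℤ) (hM : M.natDegree ≤ r + 1)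
    (hB : B.natDegree ≤ r + 1) : (M * X ^ n + C s * B).natDegree ≤ n + r + 1 := by
  refine (natDegree_add_le _ _).trans (max_le ?_ ?_)
  · refine natDegree_mul_le.trans ?_
    have := natDegree_X_pow_le (R := ℤ) n
    omega
  · refine (natDegree_C_mul_le _ _).trans ?_
    omega

lemma dA1 (r : ℕ) : (X ^ r - X ^ (r - 1) + 1 : ℤ[X]).natDegree ≤ r + 1 := by
  compute_degree
  all_goals omega

lemma dA2 (r : ℕ) : (X ^ r - X + 1 : ℤ[X]).natDegree ≤ r + 1 := by
  compute_degree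
  all_goals omega

lemma dA3 (r : ℕ) : ((X ^ r + 1) * (X - 1) : ℤ[X]).natDegree ≤ r + 1 := by
  compute_degree

lemma dA4 (r : ℕ) : (X ^ (r + 1) - 1 : ℤ[X]).natDegree ≤ r + 1 := by
  compute_degree

lemma dChi : Chi.natDegree ≤ 4 := by
  unfold Chi
  compute_degree

lemma dC1 : (X ^ 3 + X ^ 2 - X - 1 : ℤ[X]).natDegree ≤ 4 := by
  compute_degree
  all_goals omega

lemma dC2 : (X ^ 4 - X ^ 2 + 1 : ℤ[X]).natDegree ≤ 4 := by
  compute_degree

/-! ### Values in terms of `w = 1 / x` -/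

section values

variable {x : ℝ} (hx : x ≠ 0)

include hx

lemma phi_val (r : ℕ) : aeval x (Phi r) * (x⁻¹) ^ r = x - 2 + (x - 1) * (x⁻¹) ^ r := by
  have h : x ^ r * (x⁻¹) ^ r = 1 := by rw [← mul_pow, mul_inv_cancel₀ hx, one_pow]
  simp only [Phi, map_sub, map_add, map_mul, map_pow, aeval_X, map_one, map_ofNat]
  rw [pow_succ]
  linear_combination (x - 2) * h

lemma sum_val (r : ℕ) : (x - 1) * aeval x (∑ i ∈ Finset.range r, X ^ i : ℤ[X]) * (x⁻¹) ^ r =
    1 - (x⁻¹) ^ r := by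
  have h : x ^ r * (x⁻¹) ^ r = 1 := by rw [← mul_pow, mul_inv_cancel₀ hx, one_pow]
  have h2 := mul_geom_sum x r
  simp only [map_sum, map_pow, aeval_X]
  rw [h2]
  linear_combination h

lemma psi_val (r : ℕ) : (x - 1) * aeval x (Psi r) * (x⁻¹) ^ (r + 1) =
    x - 2 + (x⁻¹) ^ (r + 1) := by
  have h : x ^ (r + 1) * (x⁻¹) ^ (r + 1) = 1 := by
    rw [← mul_pow, mul_inv_cancel₀ hx, one_pow]
  have h2 := sum_val hx (r + 1)
  rw [Psi, map_sub]
  simp only [map_pow, aeval_X]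
  linear_combination (x - 1) * h - h2

lemma type1 {r n : ℕ} {s : ℤ} (hr : 1 ≤ r)
    (h : aeval x (Phi r * X ^ n + C s * (X ^ r - X ^ (r - 1) + 1)) = 0) :
    2 - x = (x - 1) * (x⁻¹) ^ r + s * ((x - 1) * (x⁻¹) ^ (n + 1)) + s * (x⁻¹) ^ (n + r) := by
  obtain ⟨t, rfl⟩ : ∃ t, r = t + 1 := ⟨r - 1, by omega⟩
  have h1 := phi_val hx (t + 1)
  have ha : x ^ t * (x⁻¹) ^ t = 1 := by rw [← mul_pow, mul_inv_cancel₀ hx, one_pow]
  have hb : x ^ n * (x⁻¹) ^ n = 1 := by rw [← mul_pow, mul_inv_cancel₀ hx, one_pow]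
  have hc : x * x⁻¹ = 1 := mul_inv_cancel₀ hx
  have hs : aeval x (C s : ℤ[X]) = (s : ℝ) := by rw [aeval_C]; rfl
  rw [map_add, map_mul, map_mul, hs] at h
  simp only [map_sub, map_add, map_pow, aeval_X, map_one, Nat.add_sub_cancel] at h
  set w := x⁻¹ with hw
  set p := aeval x (Phi (t + 1)) with hp
  have h2 : p * x ^ n * (w ^ (t + 1) * w ^ n) = x - 2 + (x - 1) * w ^ (t + 1) := by
    linear_combination h1 * (x ^ n * w ^ n) + (x - 2 + (x - 1) * w ^ (t + 1)) * hb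
  have h3 : (x ^ (t + 1) - x ^ t + 1) * (w ^ (t + 1) * w ^ n) =
      (x - 1) * w ^ (n + 1) + w ^ (n + (t + 1)) := by
    have e1 : x ^ (t + 1) * w ^ (t + 1) = 1 := by
      rw [pow_succ, pow_succ]; linear_combination ha * (x * w) + hc
    have e2 : x ^ t * w ^ (t + 1) = w := by
      rw [pow_succ w]; linear_combination w * ha
    rw [pow_add w n (t + 1), pow_succ w n]
    linear_combination w ^ n * e1 - w ^ n * e2 - w ^ n * hc
  have h4 : (p * x ^ n + s * (x ^ (t + 1) - x ^ t + 1)) * (w ^ (t + 1) * w ^ n) = 0 := by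
    rw [h, zero_mul]
  linear_combination h2 + (s : ℝ) * h3 - h4

lemma type2 {r n : ℕ} {s : ℤ}
    (h : aeval x (Phi r * X ^ n + C s * (X ^ r - X + 1)) = 0) :
    2 - x = (x - 1) * (x⁻¹) ^ r + s * (1 * (x⁻¹) ^ n) + (-(s * (x - 1) * (x⁻¹) ^ (n + r))) := by
  have h1 := phi_val hx r
  have ha : x ^ r * (x⁻¹) ^ r = 1 := by rw [← mul_pow, mul_inv_cancel₀ hx, one_pow]
  have hb : x ^ n * (x⁻¹) ^ n = 1 := by rw [← mul_pow, mul_inv_cancel₀ hx, one_pow]
  have hs : aeval x (C s : ℤ[X]) = (s : ℝ) := by rw [aeval_C]; rfl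
  rw [map_add, map_mul, map_mul, hs] at h
  simp only [map_sub, map_add, map_pow, aeval_X, map_one] at h
  set w := x⁻¹ with hw
  set p := aeval x (Phi r) with hp
  have h2 : p * x ^ n * (w ^ r * w ^ n) = x - 2 + (x - 1) * w ^ r := by
    linear_combination h1 * (x ^ n * w ^ n) + (x - 2 + (x - 1) * w ^ r) * hb
  have h3 : (x ^ r - x + 1) * (w ^ r * w ^ n) = w ^ n - (x - 1) * w ^ (n + r) := by
    rw [pow_add w n r]
    linear_combination w ^ n * ha
  have h4 : (p * x ^ n + s * (x ^ r - x + 1)) * (w ^ r * w ^ n) = 0 := by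
    rw [h, zero_mul]
  linear_combination h2 + (s : ℝ) * h3 - h4

lemma type3 {r n : ℕ} {s : ℤ}
    (h : aeval x (Phi r * X ^ n + C s * ((X ^ r + 1) * (X - 1))) = 0) :
    2 - x = (x - 1) * (x⁻¹) ^ r + s * ((x - 1) * (x⁻¹) ^ n) +
      s * (x - 1) * (x⁻¹) ^ (n + r) := by
  have h1 := phi_val hx r
  have ha : x ^ r * (x⁻¹) ^ r = 1 := by rw [← mul_pow, mul_inv_cancel₀ hx, one_pow]
  have hb : x ^ n * (x⁻¹) ^ n = 1 := by rw [← mul_pow, mul_inv_cancel₀ hx, one_pow]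
  have hs : aeval x (C s : ℤ[X]) = (s : ℝ) := by rw [aeval_C]; rfl
  rw [map_add, map_mul, map_mul, hs] at h
  simp only [map_sub, map_add, map_mul, map_pow, aeval_X, map_one] at h
  set w := x⁻¹ with hw
  set p := aeval x (Phi r) with hp
  have h2 : p * x ^ n * (w ^ r * w ^ n) = x - 2 + (x - 1) * w ^ r := by
    linear_combination h1 * (x ^ n * w ^ n) + (x - 2 + (x - 1) * w ^ r) * hb
  have h3 : (x ^ r + 1) * (x - 1) * (w ^ r * w ^ n) =
      (x - 1) * w ^ n + (x - 1) * w ^ (n + r) := by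
    rw [pow_add w n r]
    linear_combination (x - 1) * w ^ n * ha
  have h4 : (p * x ^ n + s * ((x ^ r + 1) * (x - 1))) * (w ^ r * w ^ n) = 0 := by
    rw [h, zero_mul]
  linear_combination h2 + (s : ℝ) * h3 - h4

lemma type4 {r n : ℕ} {s : ℤ}
    (h : aeval x (Psi r * X ^ n + C s * (X ^ (r + 1) - 1)) = 0) :
    2 - x = 1 * (x⁻¹) ^ (r + 1) + s * ((x - 1) * (x⁻¹) ^ n) +
      (-(s * (x - 1) * (x⁻¹) ^ (n + r + 1))) := by
  have h1 := psi_val hx r
  have ha : x ^ (r + 1) * (x⁻¹) ^ (r + 1) = 1 := by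
    rw [← mul_pow, mul_inv_cancel₀ hx, one_pow]
  have hb : x ^ n * (x⁻¹) ^ n = 1 := by rw [← mul_pow, mul_inv_cancel₀ hx, one_pow]
  have hs : aeval x (C s : ℤ[X]) = (s : ℝ) := by rw [aeval_C]; rfl
  rw [map_add, map_mul, map_mul, hs] at h
  simp only [map_sub, map_pow, aeval_X, map_one] at h
  set w := x⁻¹ with hw
  set p := aeval x (Psi r) with hp
  have h2 : (x - 1) * (p * x ^ n) * (w ^ (r + 1) * w ^ n) = x - 2 + w ^ (r + 1) := by
    linear_combination h1 * (x ^ n * w ^ n) + (x - 2 + w ^ (r + 1)) * hb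
  have h3 : (x ^ (r + 1) - 1) * (w ^ (r + 1) * w ^ n) = w ^ n - w ^ (n + r + 1) := by
    rw [add_assoc n r 1, pow_add w n (r + 1)]
    linear_combination w ^ n * ha
  have h4 : (p * x ^ n + s * (x ^ (r + 1) - 1)) * (w ^ (r + 1) * w ^ n) = 0 := by
    rw [h, zero_mul]
  linear_combination h2 + (s : ℝ) * (x - 1) * h3 - (x - 1) * h4

lemma type5 {r n : ℕ} {s : ℤ}
    (h : aeval x (Psi r * X ^ n + C s * ∑ i ∈ Finset.range r, X ^ i) = 0) :
    2 - x = 1 * (x⁻¹) ^ (r + 1) + s * (1 * (x⁻¹) ^ (n + 1)) +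
      (-(s * (x⁻¹) ^ (n + r + 1))) := by
  have h1 := psi_val hx r
  have h1' := sum_val hx r
  have hb : x ^ n * (x⁻¹) ^ n = 1 := by rw [← mul_pow, mul_inv_cancel₀ hx, one_pow]
  have hs : aeval x (C s : ℤ[X]) = (s : ℝ) := by rw [aeval_C]; rfl
  rw [map_add, map_mul, map_mul, hs] at h
  simp only [map_pow, aeval_X] at h
  set w := x⁻¹ with hw
  set p := aeval x (Psi r) with hp
  set g := aeval x (∑ i ∈ Finset.range r, X ^ i : ℤ[X]) with hg
  have h2 : (x - 1) * (p * x ^ n) * (w ^ (r + 1) * w ^ n) = x - 2 + w ^ (r + 1) := by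
    linear_combination h1 * (x ^ n * w ^ n) + (x - 2 + w ^ (r + 1)) * hb
  have h3 : (x - 1) * g * (w ^ (r + 1) * w ^ n) = w ^ (n + 1) - w ^ (n + r + 1) := by
    rw [show n + r + 1 = n + (r + 1) by ring, pow_add w n (r + 1), pow_succ w r, pow_succ w n]
    linear_combination w * w ^ n * h1'
  have h4 : (p * x ^ n + s * g) * (w ^ (r + 1) * w ^ n) = 0 := by
    rw [h, zero_mul]
  linear_combination h2 + (s : ℝ) * h3 - (x - 1) * h4

end values

/-! ### The contradiction -/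

section analysis

variable {k : ℕ} {q : ℝ}

lemma u_small (hk : 9 ≤ k) (hq1 : 1.99 < q) : 0 < (q⁻¹) ^ (k + 1) ∧ (q⁻¹) ^ (k + 1) < 0.01 := by
  have hq0 : 0 < q := by linarith
  refine ⟨by positivity, ?_⟩
  have h1 : q⁻¹ < (1.99 : ℝ)⁻¹ := by
    apply inv_strictAnti₀ (by norm_num) hq1
  calc (q⁻¹) ^ (k + 1) ≤ ((1.99 : ℝ)⁻¹) ^ (k + 1) := by
        apply pow_le_pow_left₀ (by positivity) h1.le
    _ ≤ ((1.99 : ℝ)⁻¹) ^ 10 := by
        apply pow_le_pow_of_le_one (by norm_num) (by norm_num) (by omega)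
    _ < 0.01 := by norm_num

lemma delta_eq (hq1 : 1.99 < q) (hq : aeval q (P k) = 0) :
    2 - q = (q - 1) * ((q⁻¹) ^ (k + 1) - (q - 1) * ((q⁻¹) ^ (k + 1)) ^ 2 -
      q * ((q⁻¹) ^ (k + 1)) ^ 3 - q * ((q⁻¹) ^ (k + 1)) ^ 4) := by
  have hq0 : q ≠ 0 := by linarith
  rw [aeval_P] at hq
  set u := (q⁻¹) ^ (k + 1) with hu
  set Q := q ^ (k + 1) with hQ
  have hQu : Q * u = 1 := by rw [hQ, hu, ← mul_pow, mul_inv_cancel₀ hq0, one_pow]
  have e1 : q * q ^ (4 * k + 3) = Q ^ 4 := by rw [hQ]; ring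
  have e2 : q * q ^ (3 * k + 2) = Q ^ 3 := by rw [hQ]; ring
  have e3 : q ^ (2 * k + 2) = Q ^ 2 := by rw [hQ]; ring
  have e4 : q * q ^ (2 * k + 1) = Q ^ 2 := by rw [hQ]; ring
  have h1 : Q ^ 4 * (q - 2) + (q - 1) * (Q ^ 3 - q * Q ^ 2 + Q ^ 2 - q * Q - q) = 0 := by
    rw [← e1, ← e2]
    linear_combination q * hq + q * (q - 1) * (e3 - e3) - (q - 1) * e4 + (q - 1) * q * e3
  have h2 : (Q * u) ^ 4 * (q - 2) + (q - 1) * ((Q * u) ^ 3 * u - q * (Q * u) ^ 2 * u ^ 2 +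
      (Q * u) ^ 2 * u ^ 2 - q * (Q * u) * u ^ 3 - q * u ^ 4) = 0 := by
    linear_combination u ^ 4 * h1
  rw [hQu] at h2
  linear_combination -h2

/-- Consequences of `delta_eq`. -/
lemma delta_bounds (hk : 9 ≤ k) (hq1 : 1.99 < q) (hq2 : q < 2) (hq : aeval q (P k) = 0) :
    ∃ Y : ℝ, 2 - q = (q - 1) * (q⁻¹) ^ (k + 1) - Y ∧ 0.9 * ((q⁻¹) ^ (k + 1)) ^ 2 ≤ Y ∧
      Y ≤ 1.1 * ((q⁻¹) ^ (k + 1)) ^ 2 := by
  have hd := delta_eq hq1 hq
  obtain ⟨hu0, hu1⟩ := u_small hk hq1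
  set u := (q⁻¹) ^ (k + 1) with hu
  refine ⟨(q - 1) * ((q - 1) * u ^ 2 + q * u ^ 3 + q * u ^ 4), by rw [hd]; ring, ?_, ?_⟩
  · have h1 : 0 ≤ (q - 1) * (q * u ^ 3 + q * u ^ 4) := by
      apply mul_nonneg (by linarith)
      have : 0 ≤ q := by linarith
      positivity
    have h2 : 0.9 ≤ (q - 1) * (q - 1) := by nlinarith
    have h3 : 0.9 * u ^ 2 ≤ (q - 1) * (q - 1) * u ^ 2 :=
      mul_le_mul_of_nonneg_right h2 (sq_nonneg u)
    linarith
  · have h1 : u ^ 3 ≤ 0.01 * u ^ 2 := by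
      have : u ^ 3 = u * u ^ 2 := by ring
      rw [this]
      exact mul_le_mul_of_nonneg_right hu1.le (sq_nonneg u)
    have h2 : u ^ 4 ≤ 0.01 * u ^ 2 := by
      have e : u ^ 4 = u ^ 2 * u ^ 2 := by ring
      rw [e]
      apply mul_le_mul_of_nonneg_right _ (sq_nonneg u)
      nlinarith
    have h3 : (q - 1) * u ^ 2 ≤ 1 * u ^ 2 := mul_le_mul_of_nonneg_right (by linarith) (sq_nonneg u)
    have h4 : q * u ^ 3 ≤ 2 * u ^ 3 := mul_le_mul_of_nonneg_right (by linarith) (by positivity)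
    have h5 : q * u ^ 4 ≤ 2 * u ^ 4 := mul_le_mul_of_nonneg_right (by linarith) (by positivity)
    have h6 : (q - 1) * u ^ 2 + q * u ^ 3 + q * u ^ 4 ≤ 1.1 * u ^ 2 := by
      linarith [sq_nonneg u]
    have h7 : 0 ≤ (q - 1) * u ^ 2 + q * u ^ 3 + q * u ^ 4 := by
      have h71 : 0 ≤ (q - 1) * u ^ 2 := mul_nonneg (by linarith) (sq_nonneg u)
      have h72 : 0 ≤ q := by linarith
      positivity
    calc (q - 1) * ((q - 1) * u ^ 2 + q * u ^ 3 + q * u ^ 4)
        ≤ 1 * ((q - 1) * u ^ 2 + q * u ^ 3 + q * u ^ 4) :=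
          mul_le_mul_of_nonneg_right (by linarith) h7
      _ ≤ 1.1 * u ^ 2 := by linarith

/-- The main inequality argument. -/
lemma no_solution (hk : 9 ≤ k) (hq1 : 1.99 < q) (hq2 : q < 2) (hq : aeval q (P k) = 0)
    {i j : ℕ} {c e : ℝ} (hc : c = 1 ∨ c = q - 1) (hij : i ≤ j) (hsum : 4 * k + 3 ≤ i + j)
    (he : |e| ≤ (q⁻¹) ^ j + 2 * ((q⁻¹) ^ (k + 1)) ^ 4)
    (h : 2 - q = c * (q⁻¹) ^ i + e) : False := by
  obtain ⟨Y, hY, hY1, hY2⟩ := delta_bounds hk hq1 hq2 hq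
  obtain ⟨hu0, hu1⟩ := u_small hk hq1
  have hq0 : 0 < q := by linarith
  set w := q⁻¹ with hw
  have hw0 : 0 < w := inv_pos.mpr hq0
  have hqw : q * w = 1 := mul_inv_cancel₀ hq0.ne'
  have hw2 : w < 0.51 := by nlinarith
  have hw1 : w ≤ 1 := by linarith
  set u := w ^ (k + 1) with hu
  have hj : w ^ j ≤ u ^ 2 := by
    rw [hu, ← pow_mul]
    exact pow_le_pow_of_le_one hw0.le hw1 (by omega)
  have hc1 : q - 1 ≤ c := by rcases hc with h | h <;> rw [h]; linarith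
  have hc2 : c ≤ 1 := by rcases hc with h | h <;> rw [h]; linarith
  have hu2 : u ^ 2 ≤ 0.01 * u := by
    have : u ^ 2 = u * u := by ring
    rw [this]; exact mul_le_mul_of_nonneg_right hu1.le hu0.le
  have hu4 : u ^ 4 ≤ 0.01 * u ^ 2 := by
    have e : u ^ 4 = u ^ 2 * u ^ 2 := by ring
    rw [e]
    exact mul_le_mul_of_nonneg_right (by linarith) (sq_nonneg u)
  have hu2p : 0 < u ^ 2 := by positivity
  obtain ⟨he1, he2⟩ := abs_le.mp he
  have hqu1 : (q - 1) * u ≤ u := by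
    have : (q - 1) * u ≤ 1 * u := mul_le_mul_of_nonneg_right (by linarith) hu0.le
    linarith
  have hqu2 : 0.99 * u ≤ (q - 1) * u := mul_le_mul_of_nonneg_right (by linarith) hu0.le
  rcases lt_trichotomy i (k + 1) with hi | hi | hi
  · -- `i ≤ k`
    have h1 : q * u ≤ w ^ i := by
      have e1 : q * u = w ^ k := by
        rw [hu, pow_succ]; linear_combination w ^ k * hqw
      rw [e1]
      exact pow_le_pow_of_le_one hw0.le hw1 (by omega)
    have h1' : 1.99 * u ≤ w ^ i := by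
      have : 1.99 * u ≤ q * u := mul_le_mul_of_nonneg_right hq1.le hu0.le
      linarith
    have h2 : 0.99 * (1.99 * u) ≤ c * w ^ i := by
      apply mul_le_mul (by linarith) h1' (by positivity) (by linarith)
    linarith
  · -- `i = k + 1`
    have h1 : w ^ j ≤ q * u ^ 3 := by
      have e1 : q * u ^ 3 = w ^ (3 * k + 2) := by
        rw [hu, ← pow_mul, show (k + 1) * 3 = 3 * k + 2 + 1 by ring, pow_succ]
        linear_combination w ^ (3 * k + 2) * hqw
      rw [e1]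
      exact pow_le_pow_of_le_one hw0.le hw1 (by omega)
    have h2 : w ^ i = u := by rw [hi]
    rw [h2] at h
    have h3 : (q - 1) * u ≤ c * u := mul_le_mul_of_nonneg_right hc1 hu0.le
    have h4 : q * u ^ 3 ≤ 2 * (0.01 * u ^ 2) := by
      have e : u ^ 3 = u * u ^ 2 := by ring
      apply mul_le_mul hq2.le _ (by positivity) (by norm_num)
      rw [e]
      exact mul_le_mul_of_nonneg_right hu1.le (sq_nonneg u)
    linarith
  · -- `k + 2 ≤ i`
    have h1 : w ^ i ≤ w * u := by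
      have e1 : w * u = w ^ (k + 2) := by rw [hu]; ring
      rw [e1]
      exact pow_le_pow_of_le_one hw0.le hw1 (by omega)
    have h1' : w ^ i ≤ 0.51 * u := by
      have : w * u ≤ 0.51 * u := mul_le_mul_of_nonneg_right hw2.le hu0.le
      linarith
    have h2 : c * w ^ i ≤ 1 * (0.51 * u) := by
      apply mul_le_mul hc2 h1' (by positivity) (by norm_num)
    linarith

lemma no_solution2 (hk : 9 ≤ k) (hq1 : 1.99 < q) (hq2 : q < 2) (hq : aeval q (P k) = 0)
    {i j : ℕ} {c₁ c₂ e : ℝ} {s : ℤ} (hc₁ : c₁ = 1 ∨ c₁ = q - 1) (hc₂ : c₂ = 1 ∨ c₂ = q - 1)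
    (hs : s = 1 ∨ s = -1) (hsum : 4 * k + 3 ≤ i + j)
    (he : |e| ≤ 2 * ((q⁻¹) ^ (k + 1)) ^ 4)
    (h : 2 - q = c₁ * (q⁻¹) ^ i + s * (c₂ * (q⁻¹) ^ j) + e) : False := by
  have hq0 : 0 < q := by linarith
  have hw0 : 0 < q⁻¹ := inv_pos.mpr hq0
  have hwp : ∀ t, 0 < (q⁻¹) ^ t := fun t => pow_pos hw0 t
  have hc1 : 0 ≤ c₁ ∧ c₁ ≤ 1 := by
    rcases hc₁ with h | h <;> rw [h] <;> constructor <;> linarith
  have hc2 : 0 ≤ c₂ ∧ c₂ ≤ 1 := by
    rcases hc₂ with h | h <;> rw [h] <;> constructor <;> linarith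
  have hcp : ∀ {c : ℝ} (t : ℕ), c ≤ 1 → c * (q⁻¹) ^ t ≤ (q⁻¹) ^ t := by
    intro c t hc
    have : c * (q⁻¹) ^ t ≤ 1 * (q⁻¹) ^ t := mul_le_mul_of_nonneg_right hc (hwp t).le
    linarith
  have hsabs : |(s : ℝ)| = 1 := by
    rcases hs with h | h <;> rw [h] <;> norm_num
  rcases le_or_gt i j with hij | hij
  · apply no_solution hk hq1 hq2 hq (e := s * (c₂ * (q⁻¹) ^ j) + e) hc₁ hij hsum
    · refine (abs_add_le _ _).trans (add_le_add ?_ he)
      rw [abs_mul, hsabs, one_mul, abs_mul, abs_of_nonneg hc2.1, abs_of_pos (hwp j)]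
      exact hcp j hc2.2
    · linarith
  · rcases hs with hs1 | hs1
    · apply no_solution hk hq1 hq2 hq (e := c₁ * (q⁻¹) ^ i + e) hc₂ hij.le
        (by omega : 4 * k + 3 ≤ j + i)
      · refine (abs_add_le _ _).trans (add_le_add ?_ he)
        rw [abs_mul, abs_of_nonneg hc1.1, abs_of_pos (hwp i)]
        exact hcp i hc1.2
      · rw [hs1] at h
        push_cast at h
        linarith
    · -- the negative sign is impossible
      rw [hs1] at h
      push_cast at h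
      obtain ⟨Y, hY, hY1, hY2⟩ := delta_bounds hk hq1 hq2 hq
      obtain ⟨hu0, hu1⟩ := u_small hk hq1
      have hqw : q * q⁻¹ = 1 := mul_inv_cancel₀ hq0.ne'
      have hw1 : q⁻¹ ≤ 1 := by nlinarith
      have hi : (q⁻¹) ^ i ≤ ((q⁻¹) ^ (k + 1)) ^ 2 := by
        rw [← pow_mul]
        exact pow_le_pow_of_le_one hw0.le hw1 (by omega)
      set u := (q⁻¹) ^ (k + 1) with hu
      have hu2 : u ^ 2 ≤ 0.01 * u := by
        have : u ^ 2 = u * u := by ring
        rw [this]; exact mul_le_mul_of_nonneg_right hu1.le hu0.le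
      have hu4 : u ^ 4 ≤ 0.01 * u ^ 2 := by
        have e : u ^ 4 = u ^ 2 * u ^ 2 := by ring
        rw [e]
        exact mul_le_mul_of_nonneg_right (by linarith) (sq_nonneg u)
      have hqu2 : 0.99 * u ≤ (q - 1) * u := mul_le_mul_of_nonneg_right (by linarith) hu0.le
      have h1 := hcp i hc1.2
      have h2 : 0 ≤ c₂ * (q⁻¹) ^ j := mul_nonneg hc2.1 (hwp j).le
      have h3 := (abs_le.mp he).2
      linarith

lemma small_pow (hq1 : 1.99 < q) (hq2 : q < 2) {t : ℕ} (ht : 4 * k + 3 ≤ t) :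
    (q⁻¹) ^ t ≤ 2 * ((q⁻¹) ^ (k + 1)) ^ 4 := by
  have hq0 : 0 < q := by linarith
  have hw0 : 0 < q⁻¹ := inv_pos.mpr hq0
  have hqw : q * q⁻¹ = 1 := mul_inv_cancel₀ hq0.ne'
  have hw1 : q⁻¹ ≤ 1 := by nlinarith
  calc (q⁻¹) ^ t ≤ (q⁻¹) ^ (4 * k + 3) := pow_le_pow_of_le_one hw0.le hw1 ht
    _ = q * ((q⁻¹) ^ (k + 1)) ^ 4 := by
        rw [← pow_mul, show (k + 1) * 4 = 4 * k + 3 + 1 by ring, pow_succ]
        linear_combination (-(q⁻¹) ^ (4 * k + 3)) * hqw
    _ ≤ 2 * ((q⁻¹) ^ (k + 1)) ^ 4 := by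
        apply mul_le_mul_of_nonneg_right hq2.le (by positivity)

end analysis

/-! ### Nonvanishing of the regular polynomials (evaluation at `3`) -/

lemma three_pow (r : ℕ) (hr : 1 ≤ r) : 0 < ((3 : ℝ)⁻¹) ^ r ∧ ((3 : ℝ)⁻¹) ^ r ≤ 1 / 3 := by
  refine ⟨by positivity, ?_⟩
  calc ((3 : ℝ)⁻¹) ^ r ≤ ((3 : ℝ)⁻¹) ^ 1 := by
        apply pow_le_pow_of_le_one (by norm_num) (by norm_num) hr
    _ = 1 / 3 := by norm_num

lemma three_pow' (n : ℕ) : ((3 : ℝ)⁻¹) ^ n = 1 ∨ ((3 : ℝ)⁻¹) ^ n ≤ 1 / 3 := by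
  rcases Nat.eq_zero_or_pos n with h | h
  · left; rw [h, pow_zero]
  · right; exact (three_pow n h).2

lemma ne_zero1 {r n : ℕ} {s : ℤ} (hr : 1 ≤ r) (hs : s = 1 ∨ s = -1) :
    Phi r * X ^ n + C s * (X ^ r - X ^ (r - 1) + 1) ≠ 0 := by
  intro h
  have h1 := type1 (x := 3) (by norm_num) hr (n := n) (s := s) (by rw [h, map_zero])
  obtain ⟨ha0, ha1⟩ := three_pow r hr
  have hb0 : 0 < ((3 : ℝ)⁻¹) ^ n := by positivity
  have hb1 : ((3 : ℝ)⁻¹) ^ n ≤ 1 := pow_le_one₀ (by norm_num) (by norm_num)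
  rw [pow_add _ n r, pow_succ _ n] at h1
  set a := ((3 : ℝ)⁻¹) ^ r
  set b := ((3 : ℝ)⁻¹) ^ n
  have hab : b * a ≤ 1 * a := mul_le_mul_of_nonneg_right hb1 ha0.le
  rcases hs with hs | hs <;> rw [hs] at h1 <;> push_cast at h1 <;> nlinarith [mul_pos ha0 hb0]

lemma ne_zero2 {r n : ℕ} {s : ℤ} (hr : 1 ≤ r) (hs : s = 1 ∨ s = -1) :
    Phi r * X ^ n + C s * (X ^ r - X + 1) ≠ 0 := by
  intro h
  have h1 := type2 (x := 3) (by norm_num) (r := r) (n := n) (s := s) (by rw [h, map_zero])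
  obtain ⟨ha0, ha1⟩ := three_pow r hr
  have hb0 : 0 < ((3 : ℝ)⁻¹) ^ n := by positivity
  have hb1 : ((3 : ℝ)⁻¹) ^ n ≤ 1 := pow_le_one₀ (by norm_num) (by norm_num)
  rw [pow_add] at h1
  set a := ((3 : ℝ)⁻¹) ^ r
  set b := ((3 : ℝ)⁻¹) ^ n
  have hab : b * a ≤ 1 * a := mul_le_mul_of_nonneg_right hb1 ha0.le
  rcases hs with hs | hs <;> rw [hs] at h1 <;> push_cast at h1 <;> nlinarith [mul_pos ha0 hb0]

lemma ne_zero3 {r n : ℕ} {s : ℤ} (hr : 1 ≤ r) (hs : s = 1 ∨ s = -1) :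
    Phi r * X ^ n + C s * ((X ^ r + 1) * (X - 1)) ≠ 0 := by
  intro h
  have h1 := type3 (x := 3) (by norm_num) (r := r) (n := n) (s := s) (by rw [h, map_zero])
  obtain ⟨ha0, ha1⟩ := three_pow r hr
  have hb0 : 0 < ((3 : ℝ)⁻¹) ^ n := by positivity
  have hb1 := three_pow' n
  rw [pow_add] at h1
  set a := ((3 : ℝ)⁻¹) ^ r
  set b := ((3 : ℝ)⁻¹) ^ n
  rcases hb1 with hb1 | hb1
  · rw [hb1] at h1
    rcases hs with hs | hs <;> rw [hs] at h1 <;> push_cast at h1 <;> nlinarith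
  · have hab : b * a ≤ (1 / 3) * a := mul_le_mul_of_nonneg_right hb1 ha0.le
    rcases hs with hs | hs <;> rw [hs] at h1 <;> push_cast at h1 <;> nlinarith [mul_pos ha0 hb0]

lemma ne_zero4 {r n : ℕ} {s : ℤ} (hr : 1 ≤ r) (hs : s = 1 ∨ s = -1) :
    Psi r * X ^ n + C s * (X ^ (r + 1) - 1) ≠ 0 := by
  intro h
  have h1 := type4 (x := 3) (by norm_num) (r := r) (n := n) (s := s) (by rw [h, map_zero])
  obtain ⟨ha0, ha1⟩ := three_pow r hr
  have hb0 : 0 < ((3 : ℝ)⁻¹) ^ n := by positivity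
  have hb1 := three_pow' n
  rw [show n + r + 1 = n + (r + 1) by ring, pow_add _ n (r + 1), pow_succ] at h1
  set a := ((3 : ℝ)⁻¹) ^ r
  set b := ((3 : ℝ)⁻¹) ^ n
  rcases hb1 with hb1 | hb1
  · rw [hb1] at h1
    rcases hs with hs | hs <;> rw [hs] at h1 <;> push_cast at h1 <;> nlinarith
  · have hab : b * a ≤ (1 / 3) * a := mul_le_mul_of_nonneg_right hb1 ha0.le
    rcases hs with hs | hs <;> rw [hs] at h1 <;> push_cast at h1 <;> nlinarith [mul_pos ha0 hb0]

lemma ne_zero5 {r n : ℕ} {s : ℤ} (hr : 1 ≤ r) (hs : s = 1 ∨ s = -1) :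
    Psi r * X ^ n + C s * ∑ i ∈ Finset.range r, X ^ i ≠ 0 := by
  intro h
  have h1 := type5 (x := 3) (by norm_num) (r := r) (n := n) (s := s) (by rw [h, map_zero])
  obtain ⟨ha0, ha1⟩ := three_pow r hr
  have hb0 : 0 < ((3 : ℝ)⁻¹) ^ n := by positivity
  have hb1 : ((3 : ℝ)⁻¹) ^ n ≤ 1 := pow_le_one₀ (by norm_num) (by norm_num)
  rw [show n + r + 1 = n + (r + 1) by ring, pow_add _ n (r + 1), pow_succ, pow_succ] at h1
  set a := ((3 : ℝ)⁻¹) ^ r
  set b := ((3 : ℝ)⁻¹) ^ n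
  have hab : b * a ≤ 1 * a := mul_le_mul_of_nonneg_right hb1 ha0.le
  rcases hs with hs | hs <;> rw [hs] at h1 <;> push_cast at h1 <;> nlinarith [mul_pos ha0 hb0]

/-! ### Irregularity -/

lemma irregular {k : ℕ} {q : ℝ} (hk : 9 ≤ k) (hq1 : 1.99 < q) (hq2 : q < 2)
    (hq : aeval q (P k) = 0) : ¬ IsRegularPisot q := by
  have hq0 : q ≠ 0 := by linarith
  have hq1' : 1 < q := by linarith
  have hsmall := @small_pow k q hq1 hq2
  have hw0 : 0 < q⁻¹ := inv_pos.mpr (by linarith)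
  have hc1 : (1 : ℝ) = 1 ∨ (1 : ℝ) = q - 1 := Or.inl rfl
  have hcq : (q - 1) = 1 ∨ (q - 1) = q - 1 := Or.inr rfl
  have hchi : 0.5 < q ^ 4 - q ^ 3 - 2 * q ^ 2 + 1 := by
    have h1 : q ^ 4 - q ^ 3 - 2 * q ^ 2 + 1 = q ^ 2 * ((q - 2) * (q + 1)) + 1 := by ring
    have h2 : q ^ 2 ≤ 4 := by nlinarith
    have h3 : (q - 2) * (q + 1) ≥ -0.03 := by nlinarith
    rw [h1]
    nlinarith [sq_nonneg q]
  have hchi0 : aeval q Chi = q ^ 4 - q ^ 3 - 2 * q ^ 2 + 1 := by
    simp only [Chi, map_add, map_sub, map_mul, map_pow, aeval_X, map_one, map_ofNat]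
  rintro (⟨r, hr, h | h⟩ | h | ⟨R, hR, h⟩)
  · -- `q = φ_r`
    have hne : Phi r ≠ 0 := by
      intro h0
      have := phi_val (x := 3) (by norm_num) r
      rw [h0, map_zero, zero_mul] at this
      have := (three_pow r hr).1
      linarith
    have hdeg := (le_natDegree hq1' hq hne h).trans (natDegree_Phi_le r)
    have h1 := phi_val hq0 r
    rw [h, zero_mul] at h1
    have h2 := hsmall (t := r) (by omega)
    obtain ⟨Y, hY, hY1, hY2⟩ := delta_bounds hk hq1 hq2 hq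
    obtain ⟨hu0, hu1⟩ := u_small hk hq1
    set u := (q⁻¹) ^ (k + 1) with hu
    have hu2 : u ^ 2 ≤ 0.01 * u := by
      have : u ^ 2 = u * u := by ring
      rw [this]; exact mul_le_mul_of_nonneg_right hu1.le hu0.le
    have hu4 : u ^ 4 ≤ 0.01 * u ^ 2 := by
      have e : u ^ 4 = u ^ 2 * u ^ 2 := by ring
      rw [e]
      exact mul_le_mul_of_nonneg_right (by linarith) (sq_nonneg u)
    have hqu2 : 0.99 * u ≤ (q - 1) * u := mul_le_mul_of_nonneg_right (by linarith) hu0.le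
    have h3 : (q - 1) * (q⁻¹) ^ r ≤ 1 * (q⁻¹) ^ r :=
      mul_le_mul_of_nonneg_right (by linarith) (pow_pos hw0 r).le
    linarith
  · -- `q = ψ_r`
    have hne : Psi r ≠ 0 := by
      intro h0
      have := psi_val (x := 3) (by norm_num) r
      rw [h0, map_zero, mul_zero, zero_mul] at this
      have := (three_pow (r + 1) (by omega)).1
      linarith
    have hdeg := (le_natDegree hq1' hq hne h).trans (natDegree_Psi_le r)
    have h1 := psi_val hq0 r
    rw [h, mul_zero, zero_mul] at h1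
    have h2 := hsmall (t := r + 1) (by omega)
    obtain ⟨Y, hY, hY1, hY2⟩ := delta_bounds hk hq1 hq2 hq
    obtain ⟨hu0, hu1⟩ := u_small hk hq1
    set u := (q⁻¹) ^ (k + 1) with hu
    have hu2 : u ^ 2 ≤ 0.01 * u := by
      have : u ^ 2 = u * u := by ring
      rw [this]; exact mul_le_mul_of_nonneg_right hu1.le hu0.le
    have hu4 : u ^ 4 ≤ 0.01 * u ^ 2 := by
      have e : u ^ 4 = u ^ 2 * u ^ 2 := by ring
      rw [e]
      exact mul_le_mul_of_nonneg_right (by linarith) (sq_nonneg u)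
    have hqu2 : 0.99 * u ≤ (q - 1) * u := mul_le_mul_of_nonneg_right (by linarith) hu0.le
    linarith
  · -- `q = χ`
    rw [hchi0] at h
    linarith
  · rcases hR with ⟨r, n, s, hr, hs, hR⟩ | ⟨n, s, hs, hR⟩
    · have hsabs : |(s : ℝ)| = 1 := by
        rcases hs with h | h <;> rw [h] <;> norm_num
      have hqabs : |q - 1| ≤ 1 := by rw [abs_of_pos] <;> linarith
      rcases hR with rfl | rfl | rfl | rfl | rfl
      · have hdeg := (le_natDegree hq1' hq (ne_zero1 hr hs) h).trans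
          (natDegree_comb_le s (natDegree_Phi_le r) (dA1 r))
        have h1 := type1 hq0 hr h
        refine no_solution2 hk hq1 hq2 hq hcq hcq hs (by omega) ?_ h1
        rw [abs_mul, hsabs, one_mul, abs_of_pos (pow_pos hw0 _)]
        exact hsmall (by omega)
      · have hdeg := (le_natDegree hq1' hq (ne_zero2 hr hs) h).trans
          (natDegree_comb_le s (natDegree_Phi_le r) (dA2 r))
        have h1 := type2 hq0 h
        refine no_solution2 hk hq1 hq2 hq hcq hc1 hs (by omega) ?_ h1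
        rw [abs_neg, abs_mul, abs_mul, hsabs, one_mul, abs_of_pos (pow_pos hw0 _)]
        have := hsmall (t := n + r) (by omega)
        have h2 : |q - 1| * (q⁻¹) ^ (n + r) ≤ 1 * (q⁻¹) ^ (n + r) :=
          mul_le_mul_of_nonneg_right hqabs (pow_pos hw0 _).le
        linarith
      · have hdeg := (le_natDegree hq1' hq (ne_zero3 hr hs) h).trans
          (natDegree_comb_le s (natDegree_Phi_le r) (dA3 r))
        have h1 := type3 hq0 h
        refine no_solution2 hk hq1 hq2 hq hcq hcq hs (by omega) ?_ h1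
        rw [abs_mul, abs_mul, hsabs, one_mul, abs_of_pos (pow_pos hw0 _)]
        have := hsmall (t := n + r) (by omega)
        have h2 : |q - 1| * (q⁻¹) ^ (n + r) ≤ 1 * (q⁻¹) ^ (n + r) :=
          mul_le_mul_of_nonneg_right hqabs (pow_pos hw0 _).le
        linarith
      · have hdeg := (le_natDegree hq1' hq (ne_zero4 hr hs) h).trans
          (natDegree_comb_le s (natDegree_Psi_le r) (dA4 r))
        have h1 := type4 hq0 h
        refine no_solution2 hk hq1 hq2 hq hc1 hcq hs (by omega) ?_ h1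
        rw [abs_neg, abs_mul, abs_mul, hsabs, one_mul, abs_of_pos (pow_pos hw0 _)]
        have := hsmall (t := n + r + 1) (by omega)
        have h2 : |q - 1| * (q⁻¹) ^ (n + r + 1) ≤ 1 * (q⁻¹) ^ (n + r + 1) :=
          mul_le_mul_of_nonneg_right hqabs (pow_pos hw0 _).le
        linarith
      · have hdeg := (le_natDegree hq1' hq (ne_zero5 hr hs) h).trans
          (natDegree_comb_le s (natDegree_Psi_le r) (natDegree_sum_X_le r r (by omega)))
        have h1 := type5 hq0 h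
        refine no_solution2 hk hq1 hq2 hq hc1 hc1 hs (by omega) ?_ h1
        rw [abs_neg, abs_mul, hsabs, one_mul, abs_of_pos (pow_pos hw0 _)]
        exact hsmall (by omega)
    · -- the families belonging to `χ`
      have hs' : aeval q (C s : ℤ[X]) = (s : ℝ) := by rw [aeval_C]; rfl
      have hdegChi : ∀ B : ℤ[X], B.natDegree ≤ 4 → Chi * X ^ n + C s * B ≠ 0 →
          aeval q (Chi * X ^ n + C s * B) = 0 → 4 * k ≤ n := by
        intro B hB hne h0
        have h1 := le_natDegree hq1' hq hne h0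
        have h2 : (Chi * X ^ n + C s * B).natDegree ≤ n + 4 := by
          refine (natDegree_add_le _ _).trans (max_le ?_ ?_)
          · refine natDegree_mul_le.trans ?_
            have := natDegree_X_pow_le (R := ℤ) n
            have := dChi
            omega
          · refine (natDegree_C_mul_le _ _).trans ?_
            omega
        omega
      -- nonvanishing at `3`
      have h3 : ∀ B : ℤ[X], (∃ b : ℤ, aeval (3 : ℤ) B = b ∧ 0 < b ∧ b ≠ 37 * 3 ^ n) →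
          Chi * X ^ n + C s * B ≠ 0 := by
        rintro B ⟨b, hb, hb0, hbn⟩ h0
        have h4 := congrArg (fun p : ℤ[X] => aeval (3 : ℤ) p) h0
        have hCh : aeval (3 : ℤ) Chi = 37 := by
          simp only [Chi, map_add, map_sub, map_mul, map_pow, aeval_X, map_one, map_ofNat]
          norm_num
        simp only [map_add, map_mul, map_pow, aeval_X, map_zero, hb, hCh] at h4
        have hs3 : aeval (3 : ℤ) (C s : ℤ[X]) = s := by rw [aeval_C]; rfl
        rw [hs3] at h4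
        have h5 : (0 : ℤ) < 37 * 3 ^ n := by positivity
        rcases hs with hs | hs
        · rw [hs] at h4; linarith
        · rw [hs] at h4
          apply hbn
          linarith
      have hbig : 4 * k ≤ n → 100 < (q ^ 4 - q ^ 3 - 2 * q ^ 2 + 1) * q ^ n := by
        intro hn
        have h1 : (200 : ℝ) < q ^ n := by
          calc (200 : ℝ) < 1.99 ^ 36 := by norm_num
            _ ≤ q ^ 36 := pow_le_pow_left₀ (by norm_num) hq1.le 36
            _ ≤ q ^ n := pow_le_pow_right₀ hq1'.le (by omega)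
        nlinarith
      have hq4 : q ^ 2 ≤ 4 := by nlinarith
      have hq3 : q ^ 3 ≤ 8 := by
        calc q ^ 3 ≤ 2 ^ 3 := pow_le_pow_left₀ (by linarith) hq2.le 3
          _ = 8 := by norm_num
      have hq44 : q ^ 4 ≤ 16 := by
        calc q ^ 4 ≤ 2 ^ 4 := pow_le_pow_left₀ (by linarith) hq2.le 4
          _ = 16 := by norm_num
      have hp2 : 0 < q ^ 2 := by positivity
      have hp3 : 0 < q ^ 3 := by positivity
      have hp4 : 0 < q ^ 4 := by positivity
      rcases hR with rfl | rfl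
      · have hne := h3 (X ^ 3 + X ^ 2 - X - 1) ⟨32, by simp, by norm_num, by
          intro hc
          have h37 : (37 : ℤ) ∣ 32 := Dvd.intro _ hc.symm
          norm_num at h37⟩
        have hn := hbig (hdegChi _ dC1 hne h)
        rw [map_add, map_mul, map_mul, hs', hchi0] at h
        simp only [map_sub, map_add, map_pow, aeval_X, map_one] at h
        rcases hs with hs | hs <;> rw [hs] at h <;> push_cast at h <;> linarith
      · have hne := h3 (X ^ 4 - X ^ 2 + 1) ⟨73, by simp, by norm_num, by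
          intro hc
          have h37 : (37 : ℤ) ∣ 73 := Dvd.intro _ hc.symm
          norm_num at h37⟩
        have hn := hbig (hdegChi _ dC2 hne h)
        rw [map_add, map_mul, map_mul, hs', hchi0] at h
        simp only [map_sub, map_add, map_pow, aeval_X, map_one] at h
        rcases hs with hs | hs <;> rw [hs] at h <;> push_cast at h <;> linarith

end Pool.Agent.Lib.MP_3c3704_nt
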