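import Mathlib
import Pool.Agent.Lib.MP_3c3704_nt.Defs
import Pool.Agent.Lib.MP_3c3704_nt.RootCount
import Pool.Agent.Lib.MP_3c3704_nt.Family
import Pool.Agent.Lib.MP_3c3704_nt.Pisot

/-!
The real root of `P k` is not a simple Parry number, because `P k` also has a root in `(0, 1)`.
-/

open Polynomial

namespace Pool.Agent.Lib.MP_3c3704_nt

/-- The digits of the greedy expansion of `1`. -/
noncomputable def digit (b : ℝ) (k : ℕ) : ℤ :=
  ⌊b * (fun x : ℝ => Int.fract (b * x))^[k] 1⌋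

/-- The polynomial with `D b k (b) = T ^ k 1`. -/
noncomputable def D (b : ℝ) : ℕ → ℤ[X]
  | 0 => 1
  | k + 1 => X * D b k - C (digit b k)

lemma aeval_D (b : ℝ) (k : ℕ) :
    aeval b (D b k) = (fun x : ℝ => Int.fract (b * x))^[k] 1 := by
  induction k with
  | zero => simp [D]
  | succ k ih =>
    rw [D, map_sub, map_mul, aeval_X, ih, aeval_C, Function.iterate_succ_apply', digit]
    rw [← Int.self_sub_floor]
    rfl

lemma digit_nonneg {b : ℝ} (hb : 0 ≤ b) (k : ℕ) : 0 ≤ digit b k := by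
  rw [digit]
  apply Int.floor_nonneg.mpr
  apply mul_nonneg hb
  cases k with
  | zero => simp
  | succ k =>
    rw [Function.iterate_succ_apply']
    exact Int.fract_nonneg _

lemma digit_zero {b : ℝ} (h1 : 1 < b) (h2 : b < 2) : digit b 0 = 1 := by
  rw [digit]
  simp only [Function.iterate_zero, id_eq, mul_one]
  rw [Int.floor_eq_iff]
  constructor
  · simpa using h1.le
  · push_cast; linarith

/-- For `0 < x < b` the polynomial `D b k` satisfies `D (x) / x ^ k < D (b) / b ^ k`. -/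
lemma D_lt {b x : ℝ} (h1 : 1 < b) (h2 : b < 2) (hx0 : 0 < x) (hxb : x < b) (k : ℕ) :
    aeval x (D b (k + 1)) / x ^ (k + 1) < aeval b (D b (k + 1)) / b ^ (k + 1) := by
  have hb0 : 0 < b := by linarith
  have hinv : 1 / b < 1 / x := one_div_lt_one_div_of_lt hx0 hxb
  have step : ∀ y : ℝ, 0 < y → ∀ j, aeval y (D b (j + 1)) / y ^ (j + 1) =
      aeval y (D b j) / y ^ j - (digit b j : ℝ) * (1 / y) ^ (j + 1) := by
    intro y hy j
    have : aeval y (D b (j + 1)) = y * aeval y (D b j) - (digit b j : ℝ) := by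
      rw [D, map_sub, map_mul, aeval_X, aeval_C]; rfl
    rw [this, one_div_pow, pow_succ]
    have hy' := hy.ne'
    field_simp
  induction k with
  | zero =>
    rw [step x hx0 0, step b hb0 0, digit_zero h1 h2]
    simp only [D, map_one, pow_zero, div_one, Int.cast_one, one_mul, zero_add, pow_one]
    linarith
  | succ k ih =>
    rw [step x hx0 (k + 1), step b hb0 (k + 1)]
    have hd : (0 : ℝ) ≤ (digit b (k + 1) : ℝ) := by
      exact_mod_cast digit_nonneg hb0.le (k + 1)
    have hp : (1 / b) ^ (k + 1 + 1) ≤ (1 / x) ^ (k + 1 + 1) :=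
      pow_le_pow_left₀ (by positivity) hinv.le _
    nlinarith [mul_le_mul_of_nonneg_left hp hd]

lemma not_simpleParry {k : ℕ} {q : ℝ} (hq1 : 1 < q) (hq2 : q < 2) (hq : aeval q (P k) = 0) :
    ¬ IsSimpleParry q := by
  rintro ⟨n, hn, hT⟩
  obtain ⟨j, rfl⟩ : ∃ j, n = j + 1 := ⟨n - 1, by omega⟩
  rw [← aeval_D] at hT
  -- a root of `P k` in `(0, 1)`
  have hcont : Continuous (fun x : ℝ => aeval x (P k)) := Polynomial.continuous_aeval (P k)
  have h0 : aeval (0 : ℝ) (P k) = 1 := by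
    have := coeff_zero_P k
    rw [coeff_zero_eq_aeval_zero] at this
    have h2 : aeval (0 : ℝ) (P k) = ((aeval (0 : ℤ) (P k) : ℤ) : ℝ) := by
      have := aeval_algebraMap_apply ℝ (0 : ℤ) (P k)
      simpa using this
    rw [h2, this]
    simp
  have h1 : aeval (1 : ℝ) (P k) = -1 := by
    rw [aeval_P]; norm_num
  have h3 := intermediate_value_Ioo' (by norm_num : (0 : ℝ) ≤ 1) hcont.continuousOn
  have h4 : (0 : ℝ) ∈ Set.Ioo (aeval (1 : ℝ) (P k)) (aeval (0 : ℝ) (P k)) := by
    rw [h0, h1]; constructor <;> norm_num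
  obtain ⟨x, hx, hx0⟩ := h3 h4
  have hx00 : aeval x (P k) = 0 := hx0
  -- `P k` divides `D q (j + 1)` over the rationals
  have hdvd : (P k).map (Int.castRingHom ℚ) ∣ (D q (j + 1)).map (Int.castRingHom ℚ) := by
    rw [← minpoly_eq hq1 hq]
    apply minpoly.dvd
    rw [← hT]
    exact aeval_map_algebraMap ℚ q (D q (j + 1))
  have hxD : aeval x (D q (j + 1)) = 0 := by
    obtain ⟨S, hS⟩ := hdvd
    have e1 : aeval x ((D q (j + 1)).map (Int.castRingHom ℚ)) = aeval x (D q (j + 1)) :=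
      aeval_map_algebraMap ℚ x (D q (j + 1))
    have e2 : aeval x ((P k).map (Int.castRingHom ℚ)) = aeval x (P k) :=
      aeval_map_algebraMap ℚ x (P k)
    rw [← e1, hS, map_mul, e2, hx00, zero_mul]
  have hlt := D_lt hq1 hq2 hx.1 (hx.2.trans hq1) j
  rw [hxD, hT] at hlt
  simp at hlt

end Pool.Agent.Lib.MP_3c3704_nt
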