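import Mathlib
import Pool.Agent.Lib.MP_3c3704_nt.Defs
import Pool.Agent.Lib.MP_3c3704_nt.RootCount
import Pool.Agent.Lib.MP_3c3704_nt.Family
import Pool.Agent.Lib.MP_3c3704_nt.Pisot
import Pool.Agent.Lib.MP_3c3704_nt.Parry
import Pool.Agent.Lib.MP_3c3704_nt.Irregular

/-!
The exceptional set is infinite.
-/

open Polynomial

namespace Pool.Agent.Lib.MP_3c3704_nt

lemma exists_member (k : ℕ) :
    ∃ q : ℝ, q ∈ exceptionalSet ∧ (minpoly ℚ q).natDegree = 4 * (k + 37) + 4 := by
  obtain ⟨q, hq1, hq2, hq⟩ := exists_root (k := k + 37) (by omega)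
  have h1 : 1 < q := by linarith
  have hdeg := degree_eq h1 hq
  refine ⟨q, ⟨isPisot h1 hq, by linarith, hq2, irregular (by omega) hq1 hq2 hq, ?_,
    not_simpleParry h1 hq2 hq⟩, hdeg⟩
  rw [hdeg]
  omega

theorem exceptionalSet_infinite : exceptionalSet.Infinite := by
  choose f hf hd using exists_member
  apply Set.infinite_of_injective_forall_mem (f := f) _ hf
  intro a b hab
  have h1 := hd a
  have h2 := hd b
  rw [hab] at h1
  omega

end Pool.Agent.Lib.MP_3c3704_nt
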